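import Mathlib
import Pool.Agent.H15.PC3

set_option autoImplicit false

namespace Pool.Agent.Results.MP_1f5025_nt.NoThreshold

open Finset Filter Topology

/-- additive energy of the first `N` terms -/
def energy (a : ℕ → ℕ) (N : ℕ) : ℕ :=
  ((range N ×ˢ range N ×ˢ range N ×ˢ range N).filter
    fun q => a q.1 + a q.2.1 = a q.2.2.1 + a q.2.2.2).card

open Classical in
/-- Poissonian pair correlations -/
def PPC (x : ℕ → ℝ) : Prop :=
  ∀ s : ℝ, 0 < s → Tendsto (fun N : ℕ => ((((range N ×ˢ range N).filter fun p =>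
    p.1 ≠ p.2 ∧ |x p.1 - x p.2 - round (x p.1 - x p.2)| < s / N).card : ℝ) / N))
    atTop (𝓝 (2 * s))

open Pool.Agent.H15.PC in
theorem result : ¬ ∃ ψ : ℕ → ℝ, Tendsto ψ atTop atTop ∧
    ∀ a : ℕ → ℕ, StrictMono a → (∀ n, 0 < a n) →
      (∃ c : ℝ, 0 < c ∧ ∃ᶠ N : ℕ in atTop, c * ((N : ℝ) ^ 3 / ψ N) ≤ energy a N) →
      ∀ α : ℝ, ¬ PPC fun n => Int.fract ((a n : ℝ) * α) := by
  classical
  rintro ⟨ψ, hψ, H⟩
  have h1 : ∀ j b : ℕ, ∃ m : ℕ, b ≤ m ∧ 0 < m ∧ (64 : ℝ) ^ (j + 1) ≤ ψ ((4 ^ j + 2) * m) := by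
    intro j b
    obtain ⟨N0, hN0⟩ := tendsto_atTop_atTop.mp hψ ((64 : ℝ) ^ (j + 1))
    refine ⟨b + N0 + 1, by omega, by omega, hN0 _ ?_⟩
    exact le_trans (by omega) (Nat.le_mul_of_pos_left _ (by positivity))
  choose f hf1 hf2 hf3 using h1
  obtain ⟨M, hM0, hM1, hM2⟩ : ∃ M : ℕ → ℕ, (∀ j, 0 < M j) ∧
      (∀ j, (4 ^ j + 2) * M j ≤ M (j + 1)) ∧
      ∀ j, (64 : ℝ) ^ (j + 1) ≤ ψ ((4 ^ j + 2) * M j) := by
    refine ⟨fun j => Nat.rec (f 0 0) (fun k m => f (k + 1) ((4 ^ k + 2) * m)) j, ?_, ?_, ?_⟩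
    · intro j; cases j <;> exact hf2 _ _
    · intro j; exact hf1 _ _
    · intro j; cases j <;> exact hf3 _ _
  obtain ⟨a, ha, ha0, hAP, hPP⟩ := main M hM0 hM1
  refine H a ha (fun n => ha0.trans_le (ha.monotone (Nat.zero_le n))) ⟨1, one_pos, ?_⟩
    (Real.sqrt 2) ?_
  · rw [frequently_atTop]
    intro j
    refine ⟨(4 ^ j + 2) * M j, ?_, ?_⟩
    · have h2 : j < 4 ^ j := Nat.lt_pow_self (by norm_num)
      have h3 := Nat.le_mul_of_pos_right (4 ^ j + 2) (hM0 j)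
      omega
    obtain ⟨d, hd⟩ := hAP j
    have h2 : M j ^ 3 ≤ energy a ((4 ^ j + 2) * M j) := by
      have h3 : (range (M j) ×ˢ range (M j) ×ˢ range (M j)).card = M j ^ 3 := by
        simp only [card_product, card_range]; ring
      rw [← h3, add_mul]
      generalize 4 ^ j * M j = S at hd ⊢
      refine card_le_card_of_injOn (fun p => (S + (p.1 + p.2.1), S + p.2.2, S + (p.1 + p.2.2),
        S + p.2.1)) ?_ ?_
      · rintro ⟨u, v, w⟩ hp
        simp only [coe_product, coe_range, Set.mem_prod, Set.mem_Iio] at hp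
        simp only [coe_filter, mem_product, mem_range, Set.mem_ofPred_eq]
        refine ⟨by omega, ?_⟩
        rw [hd (u + v) (by omega), hd w (by omega), hd (u + w) (by omega), hd v (by omega)]
        ring
      · rintro ⟨u, v, w⟩ _ ⟨u', v', w'⟩ _ h
        simp only [Prod.mk.injEq] at h ⊢
        omega
    have h3 : (4 ^ j + 2) * M j ≤ 4 ^ (j + 1) * M j := by
      apply Nat.mul_le_mul_right
      have : 0 < 4 ^ j := by positivity
      rw [pow_succ]; omega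
    have h4 : (((4 ^ j + 2) * M j : ℕ) : ℝ) ≤ 4 ^ (j + 1) * M j := by exact_mod_cast h3
    have h5 : ((M j : ℝ)) ^ 3 ≤ energy a ((4 ^ j + 2) * M j) := by exact_mod_cast h2
    have h6 := hM2 j
    rw [one_mul]
    refine le_trans ?_ h5
    calc (((4 ^ j + 2) * M j : ℕ) : ℝ) ^ 3 / ψ ((4 ^ j + 2) * M j) ≤
        (4 ^ (j + 1) * M j) ^ 3 / 64 ^ (j + 1) := by gcongr
      _ = _ := by
        rw [mul_pow, ← pow_mul, mul_comm (j + 1) 3, pow_mul]
        norm_num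
  · intro s hs
    refine (hPP s hs).congr fun N => ?_
    unfold Pc
    congr 3
    ext ⟨k, l⟩
    have h2 : ∀ t : ℝ, ((Int.fract t : ℝ) : T1) = (t : T1) := fun t => AddCircle.coe_fract t
    simp only [mem_filter, mem_offDiag, mem_product]
    rw [← UnitAddCircle.norm_eq, AddCircle.coe_sub, h2, h2]
    tauto

end Pool.Agent.Results.MP_1f5025_nt.NoThreshold
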